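import Pool.Agent.H433.EW.Main2

/-!
# Uniform bounds for the torsion points of all the hyperelliptic Jacobians (all the Jacobians of
# dimension two) with almost squarefree discriminant and of all their twists, over all the fields of
# bounded degree

`MP_160b6c_nt` (Q1, a partial answer in every dimension `g`). For EVERY hyperelliptic curve
`y ^ 2 = f(x)` of genus `g` over a number field `K`, `f ∈ O_K[x]` of degree `2 g + 2`, such that the
discriminant of `f` is not too far from being squarefree (an explicit condition), we show that a
torsion point of a quadratic twist of the Jacobian over ANY finite extension (no bound for the degree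
or for the ramification) is determined by its images in the groups of components of the reductions
with one node. So the order of a torsion point over a field of degree at most `m` over `K` divides
the least common multiple of the numbers `2, ..., m`, for all these curves and all their twists. For
`g = 2` every curve of genus two has such an equation, and the condition holds for 100 per cent of
them.

The curves. Every double cover of genus `g` of the projective line over `K` (for `g = 2`: every curve
of genus two) has an equation `y ^ 2 = f(x)` with `f ∈ O_K[x]` of degree `2 g + 2` and
`D = f.discr ≠ 0`. `L` is a finite extension of `K` which contains the zeros `r_0, ..., r_{2 g + 1}`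
of `f`. `J_d` is the Jacobian of the curve `d y ^ 2 = f(x)`. Over `L` the last zero can be moved to
infinity: up to a twist, this is the curve `y ^ 2 = ∏ (x - b_i)` with
`b_i = 1 / (r_i - r_{2 g + 1})`, `i = 0, ..., 2 g` (`bc r`).

The heights. For all archimedean places `w` of `L` let `m_i(w) > 0` be real numbers with
`|r_i - r_j|_w ≤ m_i(w) m_j(w)`, and let `h_i = hm r m i` be the sum of the
`[L_w : ℝ] log m_i(w)` over these `w` and of the `log max(1, |r_i|_w)` over the finite places `w` of
`L`. Examples:
(1) `m_i(w) = √2 max(1, |r_i|_w)`. Then `h_i = [L : ℚ] (h(r_i) + 1 / 2 log 2)` with the absolute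
logarithmic Weil height `h(r_i)`, and by the lemma of Gauss the sum of the `h_i` is `[L : K] H` with
`H = ∑_{v ∣ ∞} [K_v : ℝ] log M_v(f) - log N(c) + (g + 1) log 2 [K : ℚ]`, for the Mahler measures
`M_v(f)` and the content `c` of `f`. If `f` is irreducible, then all the `h_i` are equal.
(2) More generally `m_i(w)` can be the norm of the vector `(r_i, 1)` for a hermitian form of
determinant `1`.
(3) Let `f_0 ∈ O_K[x]` be monic of degree `2 g + 1` with the zeros `a_i`, `|a_i - a_j|_w ≤ M_v` for
`w ∣ v`, and `f(x) = x ^ {2 g + 2} f_0(t + 1 / x)`, `f_0(t) ≠ 0`. The zeros of `f` are the
`1 / (a_i - t)` and `r_{2 g + 1} = 0`, `f` and `f_0` have the same discriminant,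
`m_i = |r_i| √M`, `m_{2 g + 1} = 1 / √M` are allowed, and for `s = ∑_v [K_v : ℝ] log M_v` we have
`∑ h_i = g [L : K] s` and `h_i + h_j = [L : K] s` for `i, j ≤ 2 g`.

The nodes. `T` is a finite set of primes `v` of `K` which do not divide the content of `f`, such that
exactly two of the zeros coincide (as points of the projective line) modulo every prime of `L` over
`v` (`Node`). If `v` does not divide `2`, then this means that the reduction of the curve has exactly
one singular point, and that this is a node; this is true for the `v` which divide `D` exactly once.
Let `Δ_T = part T D = ∑_{v ∈ T} v(D) log N v`. If the primes which divide `D` exactly once are in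
`T`, then `Δ_T ≥ ∑_{v ∥ D} log N v`.

The points. The sets `S ∈ Sp g` with `g + 1` elements correspond to the theta characteristics which
do not vanish at the origin; let `θ_S` be the theta function. Let `E` be a finite extension of `L`.
A point `P` of `J_d(E)` has the coordinates `x S = θ_S(z) ^ 2 / θ_S(0) ^ 2` on the Kummer variety,
which do not depend on `d`. The origin has the coordinates `x S = 1` (`Origin`). There are linear
relations between the `x S` (`Linear`), and `Double` is the duplication formula. `Orbit b X` says
that `X n` is a vector of coordinates of `2 ^ n P` for all `n`. `Torsion X` says that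
`2 ^ j P = ± 2 ^ i P` with `i < j`: this is true if and only if `P` has finite order.

The components. Let `w` be a prime of `E` over `v ∈ T`, which does not divide `2`. Over
`E_w(√d)` the group of components of the Néron model of `J_d` is cyclic. Let `r_i`, `r_j` be the
zeros which coincide modulo `w`. Then `P` lies in the identity component if and only if the maximum
of the `|x S|_w` is taken for a set `S` which separates them (`Ident`). If the chordal distance of
`r_i` and `r_j` is the absolute value of a uniformiser (`Thin`, for instance if `v` divides `D`
exactly once and `E / L` is unramified at `w`, with the splitting field `L`), then the group of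
components has the order two. (This dictionary is not used in the proof.)

The theorem. Let `P ∈ J_d(E)` be a point of finite order, let `n ≥ 0` and let `R` be a finite set of
primes of `E`. Suppose that for every prime `w ∉ R` of `E` over `T` the point `2 ^ n P` lies in the
identity component, or `w` is thin and `n ≥ 1`. Suppose that

`[E : L] (3 / 4 ([L : K] Δ_T - 2 (2 g + 1) ∑ h_k) + h_i + h_j - 4 g [L : ℚ])
  > 1 / 4 ∑_{w ∈ R} w(D) log (N w)`

for all `i < j ≤ 2 g`. Then `2 ^ n P = 0`. For `R = ∅` this is a condition for `f` and `T` only, and
there is no condition for the extension `E / L`. If `R = ∅` and `f` is irreducible over `K`, then the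
condition is

`Δ_T > (2 (2 g + 1) - 4 / (3 (g + 1))) H + 16 / 3 g [K : ℚ]`                                 (*)

with `H` as in (1).

Consequences for Q1. Suppose (*). (The condition (*) holds for 100 per cent of the polynomials of
degree `2 g + 2` over `ℤ`, ordered by the size of the coefficients, by the theorem of Bhargava,
Shankar and Wang on squarefree values of discriminants of binary forms.) Let `F` be any finite
extension of `K` and let `d ∈ F`, `d ≠ 0`. The torsion subgroup of `J_d(F)` is embedded in the
product of the groups of components at the primes of `E = F L(√d)` over `T`. If `w` is a prime of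
`F` over `v ∈ T`, then the image of `J_d(F)` in the group of components over `w` is killed by
`e(w / v) v(D)` or by `2`, if `F_w(√d) / F_w` is ramified. Therefore the torsion subgroup of `J_d(F)`
is killed by the least common multiple of `2` and of the numbers `e(w / v) v(D)`. If the `v ∈ T`
divide `D` exactly once, then it is killed by the least common multiple of the numbers `2, ..., m`
for all `F` with `[F : K] ≤ m`, `m ≥ 2`, and by `2` for `m = 1`: a bound which depends only on `m`.
(The case `n = 1` with `E / L` unramified over `T` does not need the dictionary for the components:
all the torsion points satisfy `2 P = 0`.)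

The proof. A lower bound for the height of the vector of the `θ_S(z) ^ 4`: in the identity component
at a node there is no loss at all at the finite places, whatever the ramification is; and an explicit
inequality between this height and the canonical height, which is `0` for a point of finite order
(see `MP_9a3c31_nt`, HyperellipticNodes, for the lower bound for the heights of all the points).
-/

set_option autoImplicit false

open NumberField IsDedekindDomain Finset Polynomial Filter Topology

namespace Pool.Agent.Results.MP_160b6c_nt.AllHyperellipticTorsion

open Pool.Agent.H433 Pool.Agent.H433.AC Pool.Agent.H433.HG Pool.Agent.H433.HD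
open Pool.Agent.H433.EW.Poly (bc hm hml)

/-- The points of finite order on the Jacobians of all the hyperelliptic curves `d y ^ 2 = f(x)`,
`f` of degree `2 g + 2` with integral coefficients in a number field, over all the number fields `E`
which contain the zeros of `f`: if the multiple `2 ^ n P` lies in the identity component at the
nodes (except for a set `R` of primes), then it is the origin. -/
theorem result (g : ℕ) (hg : 1 ≤ g) (K L : Type) [Field K] [NumberField K] [Field L]
    [NumberField L] [Algebra K L] (f : (𝓞 K)[X]) (hn : f.natDegree = 2 * g + 2) (hD : f.discr ≠ 0)
    (r : Fin (2 * g + 2) → L)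
    (hf : f.map (algebraMap (𝓞 K) L) =
      C (algebraMap (𝓞 K) L f.leadingCoeff) * ∏ i, (X - C (r i)))
    (m : Fin (2 * g + 2) → InfinitePlace L → ℝ) (hm0 : ∀ i w, 0 < m i w)
    (hm1 : ∀ w i j, w (r i - r j) ≤ m i w * m j w)
    (T : Finset (HeightOneSpectrum (𝓞 K)))
    (hT : ∀ v ∈ T, EW.Poly.Node r v ∧ ¬ f.contentIdeal ≤ v.asIdeal)
    (E : Type) [Field E] [NumberField E] [Algebra L E]
    (X : ℕ → Finset (Fin (2 * g + 1)) → E) (hX : Orbit (fun i => algebraMap L E (bc r i)) X)
    (hX' : Torsion X) (n : ℕ) (R : Finset (HeightOneSpectrum (𝓞 E)))
    (hI : ∀ v ∈ T, ∀ (u : HeightOneSpectrum (𝓞 L)) (w : HeightOneSpectrum (𝓞 E)), Over v u →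
      Over u w → w ∉ R → (1 ≤ n ∧ EW.Poly.Thin (fun i => algebraMap L E (r i)) w) ∨
        EW.Poly.Ident (fun i => algebraMap L E (r i)) (X n) w)
    (hB : ∀ i j : Fin (2 * g + 1), i < j →
      1 / 4 * part R (algebraMap (𝓞 L) (𝓞 E) (algebraMap (𝓞 K) (𝓞 L) f.discr)) <
        Module.finrank L E * (3 / 4 * (Module.finrank K L * part T f.discr -
          2 * (2 * g + 1) * ∑ k, hm r m k +
          4 / 3 * (hm r m i.castSucc + hm r m j.castSucc)) -
          4 * g * Module.finrank ℚ L)) :
    Origin (X n) :=
  (((Pool.Agent.H433.EW.poly_a g hg K L f hn hD r hf m hm0 hm1 T hT).2.2 E X hX).2.2 n R hI).1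
    hX' hB

end Pool.Agent.Results.MP_160b6c_nt.AllHyperellipticTorsion
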