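import Pool.Agent.H433.CQ.Main2

/-!
# Uniform bounds for the torsion points of the Jacobians of 100 per cent of the hyperelliptic curves
# `d y ^ 2 = φ(x) - t`, `φ` of degree `2 g + 2` with rational critical points, over all the fields of
# bounded degree: generic hyperelliptic curves, generic curves of genus two

`MP_160b6c_nt` (Q1, a partial answer in every dimension `g`). Let `K` be any number field. For all
the monic polynomials `φ` of degree `2 g + 2` with integral coefficients and rational critical points
(of bounded size) and for 100 per cent of the integral `t` (with a power saving for the exceptional
`t`, uniformly in `φ`), we show that a torsion point of a quadratic twist of the Jacobian of the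
curve `y ^ 2 = φ(x) - t` over ANY finite extension of `K` (no bound for the degree or for the
ramification) is determined by its images in the groups of components of the reductions with one
node. So there is no torsion over `K` for these curves and all their twists, and the order of a
torsion point over a field of degree at most `m` over `K` divides the least common multiple of the
numbers `2, ..., m`, for all `m ≥ 2`. The pairs `(φ, t)` are a finite cover of the space of all the
monic polynomials of degree `2 g + 2`: for `g = 2` this is a theorem about generic principally
polarised abelian surfaces. (`MP_160b6c_nt`, TorsionRationalCriticalPoints is about the polynomials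
`φ` of degree `2 g + 1`, where the curve has a rational Weierstrass point; the families are disjoint.)

The curves. `φ ∈ O_K[x]` is monic of degree `2 g + 2`, its derivative is
`(2 g + 2) (x - c_0) ... (x - c_{2 g})` with `c_i ∈ O_K`, the critical values `φ(c_i)` are different,
and for all the embeddings of `K` in `ℂ` we have `|c_i| ^ (2 g + 2) ≤ A T` and `|φ(0)| ≤ A T`
(`Crit (2 g + 1) A T φ c`). Examples: every `φ` with rational critical points and different critical
values if `T ≥ T_0(φ)`; or all the `φ` with `φ(0) = 0` and with `c_i ∈ (2 g + 1)! O_K`,
`|c_i| ≤ (A T) ^ {1 / (2 g + 2)}` and with different critical values. `t` is in the box of the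
elements of `O_K` whose coordinates in an integral basis are at most `T` (`box K T`). The map
`(c, t) ↦ φ - t`, `φ(0) = 0`, from the space of dimension `2 g + 2` to the space of all the monic
polynomials of degree `2 g + 2` is finite and surjective (over `K̄`), so we obtain a Zariski dense set
of points of the moduli space of ALL the hyperelliptic curves of genus `g`. For 100 per cent of the
`t` the Galois group of `φ(x) - t` is `S_{2 g + 2}`, since the geometric monodromy group of a
polynomial with different critical values is generated by transpositions.

The notation. `f = φ - t`, `D = f.discr`. `L` is the splitting field of `f`, and
`r_0, ..., r_{2 g + 1}` are the zeros. `J_d` is the Jacobian of the curve `d y ^ 2 = f(x)`. Over `L`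
the last zero can be moved to infinity: up to a twist, this is the curve `y ^ 2 = ∏ (x - b_i)` with
`b_i = 1 / (r_i - r_{2 g + 1})`, `i = 0, ..., 2 g` (`bc r`).

The points. The sets `S ∈ Sp g` with `g + 1` elements correspond to the theta characteristics which
do not vanish at the origin; let `θ_S` be the theta function. Let `E` be a finite extension of `L`.
A point `P` of `J_d(E)` has the coordinates `x S = θ_S(z) ^ 2 / θ_S(0) ^ 2` on the Kummer variety,
which do not depend on `d`. The origin has the coordinates `x S = 1` (`Origin`). There are linear
relations between the `x S` (`Linear`), and `Double` is the duplication formula. `Orbit b X` says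
that `X n` is a vector of coordinates of `2 ^ n P` for all `n`. `Torsion X` says that
`2 ^ j P = ± 2 ^ i P` with `i < j`: this is true if and only if `P` has finite order.

The components. Let `w` be a prime of `E` over a prime `v` of `K` which divides `D` exactly once (and
does not divide `2`). The reduction of the curve has exactly one node. `P` lies in the identity
component of the Néron model over `E_w(√d)` if and only if, for the two zeros which coincide modulo
`w`, the maximum of the `|x S|_w` is taken for a set `S` which separates them (`Ident`). If the
difference of these zeros is a uniformiser at `w` (`Thin`, for instance if `E / L` is unramified at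
`w`), then the group of components has the order two. `Comp f r X n` says that for all these `w` the
point `2 ^ n P` lies in the identity component, or `w` is thin and `n ≥ 1`. (This dictionary is not
used in the proof.)

The theorem. Let `A ≥ 1`. There are `C` and `δ > 0`, which depend on `g`, `K`, `A` only, such that
for all `T ≥ 1` and for all `φ` with `Crit (2 g + 1) A T φ c` the following is true for all but
`C T ^ (-δ) #(box K T)` of the `t ∈ box K T` (`TorsionBound g (φ - t)`): `D ≠ 0`, and for all the
finite extensions `E / L`, for all `d` and for all the points `P ∈ J_d(E)` of finite order, if
`Comp f r X n` is true for `n ≥ 0`, then `2 ^ n P = 0`.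

Consequences for Q1. For 100 per cent of the curves:
(a) Let `P ∈ J_d(K)`, `d ∈ K`, be a torsion point. For `E = L` and `n = 1` all the `w` are thin, so
`2 P = 0`. If the Galois group of `f` is `S_{2 g + 2}`, then there is no rational point of order two
and `P = 0`. This is the bound of Q1 for all the quadratic twists of 100 per cent of the curves. It is
true also for `P ∈ J_d(F)` with any finite extension `F / K` which is unramified at the primes
dividing `D`, with the conclusion `2 P = 0`.
(b) Let `F` be any finite extension of `K` and let `d ∈ F`, `d ≠ 0`. The torsion subgroup of `J_d(F)`
is embedded in the product of the groups of components at the primes of `E = F L(√d)` over the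
primes dividing `D` exactly once. If `w` is a prime of `F` over such a prime `v`, then the image of
`J_d(F)` in the group of components over `w` is killed by `e(w / v)` or by `2`, if `F_w(√d) / F_w` is
ramified. Therefore the torsion subgroup of `J_d(F)` is killed by the least common multiple of the
numbers `2, ..., m` for all `F` with `[F : K] ≤ m`, `m ≥ 2`: a bound which depends only on `m`.

The proof. `D = ± (2 g + 2) ^ (2 g + 2) ∏ (t - φ(c_i))`. For all but `C T ^ (-δ) #(box K T)` of the
`t` the numbers `t - φ(c_i)` are almost coprime, almost squarefree and not small at all the
archimedean places, so that the primes dividing `D` exactly once have a product of norm at least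
`T ^ ((2 g + 1) [K : ℚ] - η)`; and the zeros of `f` have the absolute value at most
`B T ^ {1 / (2 g + 2)}`. This is combined with a lower bound for the height of the vector of the
`θ_S(z) ^ 4`: in the identity component at a node there is no loss at all at the finite places,
whatever the ramification is (`EW.poly_a`; compare `MP_160b6c_nt`, AllHyperellipticTorsion, where the
curves are arbitrary and the condition for the discriminant is an assumption; the corresponding
inequality for the canonical heights of the points of infinite order is `MP_f5471b_nt`,
RationalCriticalPoints). The lemmas of the counting were proved by helper51, helper80, helper115 and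
helper163.
-/

set_option autoImplicit false

open NumberField IsDedekindDomain Finset Polynomial Filter Topology

namespace Pool.Agent.Results.MP_160b6c_nt.TorsionCriticalPointsEven

open Pool.Agent.H433 Pool.Agent.H433.AC
open Pool.Agent.H433.CQ (Crit TorsionBound)

open Classical in
/-- The points of finite order on the Jacobians of almost all the curves `y ^ 2 = φ(x) - t` and on
all their quadratic twists, over all the finite extensions of `K`, uniformly for all the polynomials
`φ` of degree `2 g + 2` with rational critical points. -/
theorem result (g : ℕ) (hg : 1 ≤ g) (K : Type) [Field K] [NumberField K] (A : ℝ) (hA : 1 ≤ A) :
    ∃ C δ : ℝ, 0 < δ ∧ ∀ T : ℕ, 1 ≤ T → ∀ (φ : (𝓞 K)[X]) (c : Fin (2 * g + 1) → 𝓞 K),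
      Crit (2 * g + 1) A T φ c →
        (((box K T).filter fun t => ¬ TorsionBound g (φ - Polynomial.C t)).card : ℝ) ≤
          C * (T : ℝ) ^ (-δ) * (box K T).card :=
  Pool.Agent.H433.CQ.main_tb g hg K hA

end Pool.Agent.Results.MP_160b6c_nt.TorsionCriticalPointsEven
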