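import Pool.Agent.H912.TX.U2

/-!
# Torsion of abelian varieties over infinite fields of finite exponent

For a number field `K` and `f ≥ 1` let `K[f]` (`expField K f`) be the field of all `α` in the
algebraic closure of `K` with `σ^f(α) = α` for all automorphisms `σ` over `K`: the union of all
finite Galois extensions of `K` whose group has exponent dividing `f`. For `f ≥ 2` its degree over
`K` is infinite, and it contains the compositum `K^(d)` of all extensions of `K` of degree at most
`d` if `f` is divisible by `1, ..., d`.

We consider projective commutative group schemes (for instance abelian schemes of any dimension),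
given by equations and addition laws (`Family`, `IsGroupFamily`, from the library).

1. Explicit uniform boundedness for few bad primes. Let `A` be a projective commutative group scheme
   in `ℙ^n` over an open part `disc ≠ 0` of `Spec 𝓞_K`, where `disc` lies in at most `s` prime ideals,
   and let there be `s + 2` prime numbers up to `Q`. Then for all `f ≥ 1` there are at most
   `(B * Q ^ ([K : ℚ] * f * g)) ^ 2` torsion points over the infinite field `K[f]`, if the fibres
   have at most `B |F| ^ g` points over the finite fields `F` (`g = n`, `B = n + 1` is always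
   possible, by 3).
2. Families. Let `A` be a family of projective commutative groups over an open part of the affine
   space with coordinates `t_1, ..., t_M` over `𝓞_k`. There is a function `ℓ` on the parameters
   `v ∈ 𝓞_k ^ M` such that for all `f ≥ 1` at once the member with parameter `v` has at most
   `(B * ℓ(v) ^ ([k : ℚ] * f * g)) ^ 2` torsion points over the infinite field `k[f]`, and such that
   the mean value of `exp(c ℓ(v))` over the boxes is bounded, for some `c > 0`.

Proof. Let `𝔭` be a prime of good reduction. The Frobenius automorphisms above `𝔭` of a finite Galois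
extension `N ⊂ K[f]` have order at most `f`, so the residue fields of `N` above `𝔭` are bounded
independently of `N`; the ramification is not bounded, and not used. Reduction at two places with
different residue characteristics is injective on the torsion subgroup (library). Finitely many
points over `K[f]` are defined over one finite Galois extension `N ⊂ K[f]`. The exponential moments
of the second smallest prime of good reduction are the ones of the library (`ExponentialMoments`,
which is about the extensions of `k` of bounded degree).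
-/

namespace Pool.Agent.Results.MP_160b6c_nt.TorsionOverInfiniteFields

open MvPolynomial NumberField IsDedekindDomain Pool.Agent.Y729.AV
open Pool.Agent.H912.AE (expField)
open Pool.Agent.H912.TX (PointsLE)

/-- The member `φ` of the family has a group law, and for every group law of the family on the set of
its points there are at most `C` torsion points. -/
def TorsionLE {R : Type} [CommRing R] {n : ℕ} (𝒜 : Family R n) {F : Type} [Field F] (φ : R →+* F)
    (C : ℕ) : Prop :=
  (∃ _ : AddCommGroup (𝒜.Pts φ), 𝒜.IsGroupLaw φ) ∧
    ∀ _ : AddCommGroup (𝒜.Pts φ), 𝒜.IsGroupLaw φ → 𝒜.torsionCount φ ≤ C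

/-- The `K[f]`-valued point of `Spec 𝓞_K`. -/
noncomputable def generic (K : Type) [Field K] (f : ℕ) : 𝓞 K →+* expField K f :=
  (algebraMap K (expField K f)).comp (algebraMap (𝓞 K) K)

/-- **Few bad primes.** Let `𝒜` be a projective commutative group scheme over the part `disc ≠ 0` of
`Spec 𝓞_K`, where `disc` lies in at most `s` prime ideals, with at most `B |F| ^ g` points over the
finite fields `F`, and let there be at least `s + 2` prime numbers `p ≤ Q`. Then for all `f ≥ 1`
there are at most `(B (Q ^ ([K : ℚ] f)) ^ g) ^ 2` torsion points over `K[f]`. -/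
def FewBadPrimes : Prop :=
  ∀ (K : Type) [Field K] [NumberField K] (n : ℕ) (𝒜 : Family (𝓞 K) n), 𝒜.IsGroupFamily →
    ∀ s Q : ℕ, {v : HeightOneSpectrum (𝓞 K) | 𝒜.disc ∈ v.asIdeal}.encard ≤ s →
      s + 2 ≤ {p : ℕ | p.Prime ∧ p ≤ Q}.ncard → ∀ g B : ℕ, PointsLE 𝒜 g B →
        ∀ f : ℕ, 1 ≤ f →
          TorsionLE 𝒜 (generic K f) ((B * (Q ^ (Module.finrank ℚ K * f)) ^ g) ^ 2)

open Classical in
/-- **Families.** Let `𝒜` be a family of projective commutative groups over the locus `disc ≠ 0` of
the affine space with coordinates `t_1, ..., t_M` over `𝓞_k`. There is a function `ℓ` with bounded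
exponential moments such that for all `f ≥ 1` at once the member with parameter `v` has at most
`(B (ℓ(v) ^ ([k : ℚ] f)) ^ g) ^ 2` torsion points over `k[f]`. -/
def Moments : Prop :=
  ∀ (k : Type) [Field k] [NumberField k] (J : Type) [Fintype J] (ω : Module.Basis J ℤ (𝓞 k))
    (M n : ℕ) (𝒜 : Family (MvPolynomial (Fin M) (𝓞 k)) n), 𝒜.IsGroupFamily →
    ∃ (ℓ : (Fin M → 𝓞 k) → ℕ) (c C : ℝ), 0 < c ∧
      (∀ H : ℕ, ∑ v ∈ (box ω M H).filter (fun v => eval v 𝒜.disc ≠ 0), Real.exp (c * ℓ v) ≤
        C * (box ω M H).card) ∧
      ∀ g B : ℕ, PointsLE 𝒜 g B → ∀ v : Fin M → 𝓞 k, eval v 𝒜.disc ≠ 0 → ∀ f : ℕ, 1 ≤ f →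
        TorsionLE 𝒜 (special v (expField k f))
          ((B * (ℓ v ^ (Module.finrank ℚ k * f)) ^ g) ^ 2)

/-- There are always at most `(n + 1) |F| ^ n` points over the finite fields `F`. -/
def PointsBound : Prop :=
  ∀ (R : Type) [CommRing R] (n : ℕ) (𝒜 : Family R n), PointsLE 𝒜 n (n + 1)

/-- `K[f]` contains all normal extensions `E` of `K` such that `σ ^ f = 1` for all automorphisms of
`E` over `K`. -/
def ContainsNormal : Prop :=
  ∀ (K : Type) [Field K] (f : ℕ) (E : IntermediateField K (AlgebraicClosure K)), Normal K E →
    (∀ σ : E ≃ₐ[K] E, σ ^ f = 1) → E ≤ expField K f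

/-- If `g` is divisible by `1, ..., d`, then `K[f g]` contains the zeros of the polynomials of degree
at most `d` with coefficients in `K[f]`. -/
def ContainsDegree : Prop :=
  ∀ (K : Type) [Field K] (f g d : ℕ), (∀ j, 1 ≤ j → j ≤ d → j ∣ g) →
    ∀ (α : AlgebraicClosure K) (P : Polynomial (expField K f)), P ≠ 0 → P.natDegree ≤ d →
      P.eval₂ (algebraMap (expField K f) (AlgebraicClosure K)) α = 0 → α ∈ expField K (f * g)

theorem fewBadPrimes : FewBadPrimes := by
  intro K _ _ n 𝒜 h𝒜 s Q hs hQ g B hgB f hf
  have h0 : generic K f 𝒜.disc ≠ 0 := by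
    intro h
    have h1 : algebraMap K (expField K f) (algebraMap (𝓞 K) K 𝒜.disc) = 0 := h
    rw [map_eq_zero] at h1
    exact h𝒜.disc_ne ((map_eq_zero_iff _ (FaithfulSMul.algebraMap_injective (𝓞 K) K)).1 h1)
  refine ⟨h𝒜.group _ _ h0, fun G hG => ?_⟩
  let _ : AddCommGroup (𝒜.Pts (toField (RingHom.id (𝓞 K)) (expField K f))) := G
  exact Pool.Agent.H912.TX.few_bad h𝒜 hgB (RingHom.id _) hs hQ hf
    (show 𝒜.IsGroupLaw (toField (RingHom.id (𝓞 K)) (expField K f)) from hG)

theorem moments : Moments := by
  intro k _ _ J _ ω M n 𝒜 h𝒜
  obtain ⟨ℓ, c, C, hc, h1, h2⟩ := Pool.Agent.H912.TX.moments_exp ω 𝒜 h𝒜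
  refine ⟨ℓ, c, C, hc, h1, fun g B hgB v hv f hf => ?_⟩
  have h0 : special v (expField k f) 𝒜.disc ≠ 0 := by
    intro h
    have h1 : algebraMap k (expField k f) (algebraMap (𝓞 k) k (eval v 𝒜.disc)) = 0 := h
    rw [map_eq_zero] at h1
    exact hv ((map_eq_zero_iff _ (FaithfulSMul.algebraMap_injective (𝓞 k) k)).1 h1)
  exact ⟨h𝒜.group _ _ h0, fun G hG => h2 g B hgB v hv f hf G hG⟩

/-- **Main theorem.** Torsion points over the infinite fields `K[f]`:

1. an explicit uniform bound for all projective commutative group schemes over `𝓞_K[1/disc]`, in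
   terms of the number of the bad primes;
2. exponential moments in arbitrary families, for all `f` at once;
3. the hypothesis on the number of the points over finite fields holds with `g = n`, `B = n + 1`;
4. `K[f]` contains all normal extensions of `K` with `σ ^ f = 1` for all automorphisms;
5. `K[f g]` contains all elements of degree at most `d` over `K[f]` if `1, ..., d` divide `g`. -/
theorem result : FewBadPrimes ∧ Moments ∧ PointsBound ∧ ContainsNormal ∧ ContainsDegree :=
  ⟨fewBadPrimes, moments, fun _ _ _ 𝒜 _ _ _ φ _ => card_pts_le 𝒜 φ,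
    fun _ _ _ E _ hE => Pool.Agent.H912.AE.le_expField E hE,
    fun _ _ _ _ _ hg _ _ hP hPd hα => Pool.Agent.H912.AE.mem_expField_mul hg hP hPd hα⟩

end Pool.Agent.Results.MP_160b6c_nt.TorsionOverInfiniteFields
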